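import Pool.Agent.Work.MP_3ca1ad_nt.PB.Main

/-!
# MP_3ca1ad_nt, theorem PB: from the key inequality to the packing bound
-/

set_option autoImplicit false

namespace Pool.Agent.PB3ca1

/-- one factor -/
theorem one (m n J r k : ℕ) (hJ : 1 ≤ J) (hr : r < n) (hm : n * J + r = 2 ^ m)
    (hF : ¬ Nat.Prime (2 ^ 2 ^ m + 1)) (hp : Nat.Prime (k * 2 ^ n + 1))
    (hd : ((k : ℤ) * 2 ^ n + 1) ∣ 2 ^ r * (2 ^ n) ^ J + 1) : 2 ^ n ≤ k ^ J := by
  have hk : 1 ≤ k := by
    rcases Nat.eq_zero_or_pos k with h | h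
    · rw [h, zero_mul, zero_add] at hp
      exact absurd hp Nat.not_prime_one
    · exact h
  have h1 : ((k : ℤ) * 2 ^ n + 1) ∣ k ^ J + (-1) ^ J * 2 ^ r := by
    have e1 : ((k : ℤ) * 2 ^ n + 1) ∣ ((k : ℤ) * 2 ^ n) ^ J - (-1) ^ J := by
      have := sub_dvd_pow_sub_pow ((k : ℤ) * 2 ^ n) (-1) J
      simpa using this
    have e : (k : ℤ) ^ J + (-1) ^ J * 2 ^ r = k ^ J * (2 ^ r * (2 ^ n) ^ J + 1) -
        2 ^ r * (((k : ℤ) * 2 ^ n) ^ J - (-1) ^ J) := by
      rw [mul_pow]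
      ring
    rw [e]
    exact dvd_sub (dvd_mul_of_dvd_right hd _) (dvd_mul_of_dvd_right e1 _)
  have h2r : 2 * 2 ^ r ≤ 2 ^ n := by
    calc 2 * 2 ^ r = 2 ^ (r + 1) := by ring
      _ ≤ 2 ^ n := Nat.pow_le_pow_right (by norm_num) (by omega)
  by_cases h0 : (k : ℤ) ^ J + (-1) ^ J * 2 ^ r = 0
  · exfalso
    have hodd : Odd J := by
      by_contra hne
      rw [Nat.not_odd_iff_even] at hne
      rw [hne.neg_one_pow] at h0
      have : (0 : ℤ) < (k : ℤ) ^ J + 1 * 2 ^ r := by positivity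
      linarith
    rw [hodd.neg_one_pow] at h0
    have h3 : k ^ J = 2 ^ r := by
      have : (k : ℤ) ^ J = 2 ^ r := by linarith
      exact_mod_cast this
    have h4 : k ∣ 2 ^ r := by
      rw [← h3]
      exact dvd_pow_self k (by omega)
    obtain ⟨a, -, ha⟩ := (Nat.dvd_prime_pow Nat.prime_two).1 h4
    have h5 : a * J = r := by
      rw [ha, ← pow_mul] at h3
      exact Nat.pow_right_injective (le_refl 2) h3
    have h6 : J ∣ 2 ^ m := ⟨n + a, by rw [← hm, ← h5]; ring⟩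
    have h7 : J = 1 := by
      have hc : Nat.Coprime J (2 ^ m) := Nat.Coprime.pow_right m (Nat.coprime_two_right.2 hodd)
      exact Nat.Coprime.eq_one_of_dvd hc h6
    apply hF
    have : 2 ^ 2 ^ m + 1 = k * 2 ^ n + 1 := by
      rw [← hm, ← h5, ha, h7]
      ring
    rw [this]
    exact hp
  · have h3 : ((k * 2 ^ n + 1 : ℕ) : ℤ) ≤ |(k : ℤ) ^ J + (-1) ^ J * 2 ^ r| := by
      have := Int.le_of_dvd (abs_pos.2 h0) ((dvd_abs _ _).2 h1)
      push_cast
      exact this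
    have h4 : |(k : ℤ) ^ J + (-1) ^ J * 2 ^ r| ≤ k ^ J + 2 ^ r := by
      refine (abs_add_le _ _).trans ?_
      rw [abs_mul, abs_pow (-1 : ℤ), abs_neg, abs_one, one_pow, one_mul,
        abs_of_nonneg (by positivity : (0 : ℤ) ≤ (k : ℤ) ^ J),
        abs_of_nonneg (by positivity : (0 : ℤ) ≤ 2 ^ r)]
    have h5 : k * 2 ^ n + 1 ≤ k ^ J + 2 ^ r := by
      exact_mod_cast h3.trans h4
    rcases Nat.lt_or_ge k 2 with hk2 | hk2
    · have : k = 1 := by omega
      rw [this, one_pow, one_mul] at h5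
      have : 0 < 2 ^ r := by positivity
      omega
    · have : 2 * 2 ^ n ≤ k * 2 ^ n := Nat.mul_le_mul_right _ hk2
      omega

theorem D_eq (x : ℤ) : ∀ l : List ℕ, D x l = (l.map (fun k : ℕ => (k : ℤ) * x + 1)).prod
  | [] => by simp [D]
  | k :: l => by simp [D, D_eq x l]

theorem D_perm (x : ℤ) {l l' : List ℕ} (hp : l.Perm l') : D x l = D x l' := by
  rw [D_eq, D_eq]
  exact (hp.map _).prod_eq

theorem D_take (x : ℤ) (l : List ℕ) (i : ℕ) : D x (l.take i) ∣ D x l := by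
  rw [D_eq, D_eq]
  conv_rhs => rw [← List.take_append_drop i l]
  rw [List.map_append, List.prod_append]
  exact Dvd.intro _ rfl

/-- the lower bound for each factor -/
theorem elt (m n J r : ℕ) (hn : 2 ≤ n) (hr : r < n) (hm : n * J + r = 2 ^ m)
    (hF : ¬ Nat.Prime (2 ^ 2 ^ m + 1)) (ks : List ℕ) (hs : ks.Pairwise (· ≤ ·))
    (hk : ∀ k ∈ ks, 1 ≤ k) (hp : ∀ k ∈ ks, Nat.Prime (k * 2 ^ n + 1))
    (hd : D (2 ^ n) ks ∣ 2 ^ r * (2 ^ n) ^ J + 1) (hlen : ks.length ≤ J)
    (i : ℕ) (hi : i < ks.length) : 2 ^ n ≤ J.choose i * ks[i] ^ (J - i) := by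
  have hx4 : (4 : ℤ) ≤ 2 ^ n := by
    calc (4 : ℤ) = 2 ^ 2 := by norm_num
      _ ≤ 2 ^ n := pow_le_pow_right₀ (by norm_num) hn
  have h2r : 2 * (2 : ℤ) ^ r ≤ 2 ^ n := by
    calc 2 * (2 : ℤ) ^ r = 2 ^ (r + 1) := by ring
      _ ≤ 2 ^ n := pow_le_pow_right₀ (by norm_num) (by omega)
  rcases Nat.eq_zero_or_pos i with h0 | hpos
  · subst h0
    have h1 : ((ks[0] : ℕ) : ℤ) * 2 ^ n + 1 ∣ D (2 ^ n) ks := by
      rw [D_eq]
      apply List.dvd_prod
      exact List.mem_map.2 ⟨ks[0], List.getElem_mem hi, rfl⟩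
    have h2 := one m n J r ks[0] (by omega) hr hm hF (hp _ (List.getElem_mem hi)) (h1.trans hd)
    rw [Nat.sub_zero, Nat.choose_zero_right, one_mul]
    exact h2
  · have hL : (ks.take (i + 1)).length = i + 1 := by
      rw [List.length_take]
      omega
    have hmem : ∀ a ∈ ks.take (i + 1), a ≤ ks[i] := by
      intro a ha
      obtain ⟨j, hj, rfl⟩ := List.mem_iff_getElem.1 ha
      rw [List.getElem_take]
      rw [hL] at hj
      rcases Nat.lt_or_ge j i with hji | hji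
      · exact (List.pairwise_iff_getElem.1 hs) j i (by omega) hi hji
      · have : j = i := by omega
        subst this
        exact le_refl _
    have hk' : ∀ a ∈ ks.take (i + 1), 1 ≤ a := fun a ha => hk a (List.mem_of_mem_take ha)
    have hd' : D (2 ^ n) (ks.take (i + 1)) ∣ 2 ^ r * (2 ^ n) ^ J + 1 :=
      (D_take _ ks (i + 1)).trans hd
    generalize hg : ks.take (i + 1) = L at hL hmem hk' hd'
    rcases L with - | ⟨k, - | ⟨k', l⟩⟩
    · simp at hL
    · simp at hL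
      omega
    · simp only [List.length_cons] at hL
      have hl : l.length + 2 = i + 1 := by omega
      have h1 := key (2 ^ n) hx4 (2 ^ r) (one_le_pow₀ (by norm_num)) h2r J k k' l hk'
        (by omega) hd'
      have h2 := h_le ks[i] k (k' :: l) hmem (J - (l.length + 2) + 1)
      have e1 : J - (l.length + 2) + 1 = J - i := by omega
      rw [e1] at h1 h2
      have e2 : (k' :: l).length = i := by
        simp only [List.length_cons]
        omega
      have e3 : J - i + i = J := by omega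
      rw [e2, e3] at h2
      have h3 : 2 ^ n ≤ h (k :: k' :: l) (J - i) := by exact_mod_cast h1
      exact h3.trans h2

theorem prod_le (x : ℤ) (hx : 1 ≤ x) : ∀ l : List ℕ, (∀ k ∈ l, 1 ≤ k) →
    (l.prod : ℤ) * x ^ l.length ≤ D x l
  | [], _ => by simp [D]
  | k :: l, hk => by
    have ih := prod_le x hx l (fun a ha => hk a (List.mem_cons_of_mem _ ha))
    have h1 : (0 : ℤ) ≤ (l.prod : ℤ) * x ^ l.length := by positivity
    simp only [D, List.length_cons, List.prod_cons, Nat.cast_mul]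
    calc (k : ℤ) * (l.prod : ℤ) * x ^ (l.length + 1)
        = (k * x) * ((l.prod : ℤ) * x ^ l.length) := by ring
      _ ≤ (k * x) * D x l := mul_le_mul_of_nonneg_left ih (by positivity)
      _ ≤ (k * x + 1) * D x l := by nlinarith

theorem prod_le' (x : ℤ) (hx : 1 ≤ x) (k : ℕ) (l : List ℕ) (hk : ∀ a ∈ k :: l, 1 ≤ a) :
    ((k :: l).prod : ℤ) * x ^ (k :: l).length + 1 ≤ D x (k :: l) := by
  have ih := prod_le x hx l (fun a ha => hk a (List.mem_cons_of_mem _ ha))
  have h1 : (1 : ℤ) ≤ D x l :=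
    (one_le_pow₀ hx).trans (D_ge x hx l (fun a ha => hk a (List.mem_cons_of_mem _ ha)))
  simp only [D, List.length_cons, List.prod_cons, Nat.cast_mul]
  calc (k : ℤ) * (l.prod : ℤ) * x ^ (l.length + 1) + 1
      = (k * x) * ((l.prod : ℤ) * x ^ l.length) + 1 := by ring
    _ ≤ (k * x) * D x l + 1 := by
        have := mul_le_mul_of_nonneg_left ih (by positivity : (0 : ℤ) ≤ k * x)
        linarith
    _ ≤ (k * x + 1) * D x l := by nlinarith

theorem logb_prod : ∀ l : List ℕ, (∀ k ∈ l, 1 ≤ k) →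
    Real.logb 2 (l.prod : ℝ) = (l.map (fun k : ℕ => Real.logb 2 (k : ℝ))).sum
  | [], _ => by simp
  | k :: l, hk => by
    have ih := logb_prod l (fun a ha => hk a (List.mem_cons_of_mem _ ha))
    have h1 : (k : ℝ) ≠ 0 := by
      have := hk k (by simp)
      have : 0 < k := this
      positivity
    have h2 : (l.prod : ℝ) ≠ 0 := by
      have : 0 < l.prod := List.prod_pos (fun a ha => hk a (List.mem_cons_of_mem _ ha))
      positivity
    rw [List.prod_cons, List.map_cons, List.sum_cons, ← ih, Nat.cast_mul, Real.logb_mul h1 h2]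

/-- the packing bound for the sorted list of cofactors -/
theorem sorted (m n J r : ℕ) (hn : 2 ≤ n) (hr : r < n) (hm : n * J + r = 2 ^ m)
    (hF : ¬ Nat.Prime (2 ^ 2 ^ m + 1)) (ks : List ℕ) (hs : ks.Pairwise (· ≤ ·))
    (hk : ∀ k ∈ ks, 1 ≤ k) (hp : ∀ k ∈ ks, Nat.Prime (k * 2 ^ n + 1))
    (hd : D (2 ^ n) ks ∣ 2 ^ r * (2 ^ n) ^ J + 1) :
    ks.length ≤ J ∧
      (n : ℝ) * ks.length + ∑ i ∈ Finset.range ks.length,
        max 0 (((n : ℝ) - Real.logb 2 (J.choose i)) / ((J : ℝ) - i)) ≤ 2 ^ m := by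
  have hx2 : (2 : ℤ) ≤ 2 ^ n := by
    calc (2 : ℤ) = 2 ^ 1 := by norm_num
      _ ≤ 2 ^ n := pow_le_pow_right₀ (by norm_num) (by omega)
  have hlen : ks.length ≤ J :=
    len_le (2 ^ n) hx2 (2 ^ r) (one_le_pow₀ (by norm_num))
      (pow_lt_pow_right₀ (by norm_num) hr) J ks hk hd
  refine ⟨hlen, ?_⟩
  -- each term
  have hterm : ∀ i : Fin ks.length,
      max 0 (((n : ℝ) - Real.logb 2 (J.choose (i : ℕ))) / ((J : ℝ) - (i : ℕ))) ≤
        Real.logb 2 ((ks[(i : ℕ)] : ℕ) : ℝ) := by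
    intro i
    have hi := i.2
    have hJi : (0 : ℝ) < (J : ℝ) - (i : ℕ) := by
      have : ((i : ℕ) : ℝ) < J := by exact_mod_cast lt_of_lt_of_le hi hlen
      linarith
    have hk1 : 1 ≤ ks[(i : ℕ)] := hk _ (List.getElem_mem hi)
    have hk1' : (1 : ℝ) ≤ ((ks[(i : ℕ)] : ℕ) : ℝ) := by exact_mod_cast hk1
    refine max_le (Real.logb_nonneg (by norm_num) hk1') ?_
    have h1 := elt m n J r hn hr hm hF ks hs hk hp hd hlen i hi
    have hc : 0 < J.choose (i : ℕ) := Nat.choose_pos (by omega)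
    have h2 : (2 : ℝ) ^ n ≤ (J.choose (i : ℕ) : ℝ) * ((ks[(i : ℕ)] : ℕ) : ℝ) ^ (J - i) := by
      exact_mod_cast h1
    have h3 := Real.logb_le_logb_of_le (by norm_num : (1 : ℝ) < 2) (by positivity) h2
    rw [Real.logb_mul (by positivity) (by positivity), Real.logb_pow, Real.logb_pow,
      Real.logb_self_eq_one (by norm_num)] at h3
    have e : (((J - i : ℕ)) : ℝ) = (J : ℝ) - (i : ℕ) := by
      rw [Nat.cast_sub (by omega)]
    rw [e] at h3
    rw [div_le_iff₀ hJi]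
    linarith
  have hsum : ∑ i ∈ Finset.range ks.length,
        max 0 (((n : ℝ) - Real.logb 2 (J.choose i)) / ((J : ℝ) - i)) ≤
      Real.logb 2 (ks.prod : ℝ) := by
    rw [logb_prod ks hk, Finset.sum_range,
      ← Fin.sum_univ_fun_getElem ks (fun k : ℕ => Real.logb 2 (k : ℝ))]
    exact Finset.sum_le_sum (fun i _ => hterm i)
  have hprodpos : 0 < ks.prod := List.prod_pos (fun a ha => hk a ha)
  have hprod : (ks.prod : ℤ) * (2 ^ n) ^ ks.length ≤ 2 ^ 2 ^ m := by
    rcases ks with - | ⟨k, l⟩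
    · simp only [List.prod_nil, List.length_nil, pow_zero, mul_one, Nat.cast_one]
      exact one_le_pow₀ (by norm_num)
    · have h1 := prod_le' (2 ^ n) (by linarith) k l hk
      have h2 := Int.le_of_dvd (by positivity) hd
      have e : (2 : ℤ) ^ r * (2 ^ n) ^ J = 2 ^ 2 ^ m := by
        rw [← hm, pow_add, pow_mul]
        ring
      rw [e] at h2
      linarith
  have hprod' : (ks.prod : ℝ) * (2 ^ n) ^ ks.length ≤ 2 ^ 2 ^ m := by exact_mod_cast hprod
  have h3 := Real.logb_le_logb_of_le (by norm_num : (1 : ℝ) < 2) (by positivity) hprod'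
  rw [Real.logb_mul (by positivity) (by positivity), Real.logb_pow, Real.logb_pow,
    Real.logb_pow, Real.logb_self_eq_one (by norm_num)] at h3
  have e : ((2 ^ m : ℕ) : ℝ) = 2 ^ m := by push_cast; ring
  rw [e] at h3
  linarith

theorem pb (m n : ℕ) (hn : 2 ≤ n) (hF : ¬ Nat.Prime (2 ^ 2 ^ m + 1)) (l : List ℕ)
    (hl : ∀ p ∈ l, Nat.Prime p ∧ 2 ^ n ∣ p - 1) (hd : l.prod ∣ 2 ^ 2 ^ m + 1) :
    l.length ≤ 2 ^ m / n ∧
      (n : ℝ) * l.length + ∑ i ∈ Finset.range l.length,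
        max 0 (((n : ℝ) - Real.logb 2 ((2 ^ m / n).choose i)) / (((2 ^ m / n : ℕ) : ℝ) - i)) ≤
          2 ^ m := by
  set f : ℕ → ℕ := fun p => (p - 1) / 2 ^ n with hf
  have hfp : ∀ p ∈ l, f p * 2 ^ n + 1 = p := by
    intro p hp
    obtain ⟨h1, h2⟩ := hl p hp
    have h3 : f p * 2 ^ n = p - 1 := Nat.div_mul_cancel h2
    have := h1.one_lt
    omega
  set ks := (l.map f).mergeSort (fun a b => decide (a ≤ b)) with hks
  have hperm : ks.Perm (l.map f) := List.mergeSort_perm _ _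
  have hs : ks.Pairwise (· ≤ ·) := by
    have := List.pairwise_mergeSort (le := fun a b : ℕ => decide (a ≤ b))
      (fun a b c h1 h2 => by simp at h1 h2 ⊢; omega) (fun a b => by simp; omega) (l.map f)
    simpa [hks] using this
  have hlen : ks.length = l.length := by rw [hperm.length_eq, List.length_map]
  have hmem : ∀ k ∈ ks, ∃ p ∈ l, f p = k := by
    intro k hk
    exact List.mem_map.1 (hperm.mem_iff.1 hk)
  have hp : ∀ k ∈ ks, Nat.Prime (k * 2 ^ n + 1) := by
    intro k hk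
    obtain ⟨p, hp, rfl⟩ := hmem k hk
    rw [hfp p hp]
    exact (hl p hp).1
  have hk : ∀ k ∈ ks, 1 ≤ k := by
    intro k hk
    rcases Nat.eq_zero_or_pos k with h | h
    · have := hp k hk
      rw [h, zero_mul, zero_add] at this
      exact absurd this Nat.not_prime_one
    · exact h
  have hm : n * (2 ^ m / n) + 2 ^ m % n = 2 ^ m := Nat.div_add_mod _ _
  have hr : 2 ^ m % n < n := Nat.mod_lt _ (by omega)
  have hD : D (2 ^ n) ks = (l.prod : ℤ) := by
    rw [D_perm _ hperm, D_eq, List.map_map]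
    have : l.map ((fun k : ℕ => (k : ℤ) * 2 ^ n + 1) ∘ f) = l.map (fun p : ℕ => (p : ℤ)) := by
      apply List.map_congr_left
      intro p hp
      simp only [Function.comp_apply]
      have := hfp p hp
      exact_mod_cast this
    rw [this]
    push_cast
    rfl
  have hd' : D (2 ^ n) ks ∣ 2 ^ (2 ^ m % n) * (2 ^ n) ^ (2 ^ m / n) + 1 := by
    rw [hD]
    have e : (2 : ℤ) ^ (2 ^ m % n) * (2 ^ n) ^ (2 ^ m / n) = 2 ^ 2 ^ m := by
      rw [← pow_mul, ← pow_add, add_comm, hm]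
    rw [e]
    exact_mod_cast hd
  have := sorted m n (2 ^ m / n) (2 ^ m % n) hn hr hm hF ks hs hk hp hd'
  rw [hlen] at this
  exact this

end Pool.Agent.PB3ca1
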