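import Mathlib

/-!
# MP_3ca1ad_nt, theorem PB: a bound for the number of prime factors of a common order

`F = 2 ^ r * x ^ J + 1`, `x = 2 ^ n`, `r < n`. Let `k_1, ..., k_s` be such that the product `D` of the
`k_i x + 1` divides `F` and let `h_j` be the complete homogeneous symmetric polynomials of the `k_i`.
Then `T = ∑_(j ≤ t) (-x)^j h_j` satisfies `T D = 1` modulo `x^(t+1)`, so the cofactor `E = F / D` is
congruent to `T` modulo `x^(t+1)`, `t = J - s + 1`. As `E` is small this forces `x ≤ h_t`.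
-/

set_option autoImplicit false

namespace Pool.Agent.PB3ca1

/-- one step of the recursion for the complete homogeneous symmetric polynomials -/
def st (k : ℕ) (g : ℕ → ℕ) : ℕ → ℕ
  | 0 => g 0
  | j + 1 => g (j + 1) + k * st k g j

/-- the complete homogeneous symmetric polynomials of a list -/
def h : List ℕ → ℕ → ℕ
  | [] => fun j => if j = 0 then 1 else 0
  | k :: l => st k (h l)

/-- the truncated generating function at `-x` -/
def T (g : ℕ → ℕ) (x : ℤ) (t : ℕ) : ℤ := ∑ j ∈ Finset.range (t + 1), (-x) ^ j * (g j : ℤ)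

/-- the product of the `k x + 1` -/
def D (x : ℤ) : List ℕ → ℤ
  | [] => 1
  | k :: l => (k * x + 1) * D x l

theorem T_succ (g : ℕ → ℕ) (x : ℤ) (t : ℕ) :
    T g x (t + 1) = T g x t + (-x) ^ (t + 1) * (g (t + 1) : ℤ) := by
  unfold T
  rw [Finset.sum_range_succ]

theorem T_zero (g : ℕ → ℕ) (x : ℤ) : T g x 0 = (g 0 : ℤ) := by
  unfold T
  simp

theorem T_st (k : ℕ) (g : ℕ → ℕ) (x : ℤ) (t : ℕ) :
    (k * x + 1) * T (st k g) x t = T g x t + k * x * (-x) ^ t * (st k g t : ℤ) := by
  induction t with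
  | zero =>
    rw [T_zero, T_zero]
    simp only [st, pow_zero]
    ring
  | succ t ih =>
    rw [T_succ, T_succ, mul_add, ih]
    have e : (st k g (t + 1) : ℤ) = (g (t + 1) : ℤ) + k * (st k g t : ℤ) := by
      simp only [st]
      push_cast
      ring
    rw [e]
    ring

theorem D_T (x : ℤ) (t : ℕ) : ∀ l : List ℕ, x ^ (t + 1) ∣ D x l * T (h l) x t - 1
  | [] => by
    have e : T (h []) x t = 1 := by
      induction t with
      | zero => rw [T_zero]; rfl
      | succ t ih =>
        rw [T_succ, ih]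
        have : h [] (t + 1) = 0 := rfl
        rw [this]
        simp
    rw [e]
    simp [D]
  | k :: l => by
    have ih := D_T x t l
    have e : D x (k :: l) * T (h (k :: l)) x t - 1 =
        (D x l * T (h l) x t - 1) + x ^ (t + 1) * ((-1) ^ t * k * D x l * (h (k :: l) t : ℤ)) := by
      have h1 := T_st k (h l) x t
      have h2 : (-x) ^ t = (-1) ^ t * x ^ t := by
        rw [← mul_pow]
        congr 1
        ring
      change ((k * x + 1) * D x l) * T (st k (h l)) x t - 1 = _ + x ^ (t + 1) *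
        ((-1) ^ t * k * D x l * (st k (h l) t : ℤ))
      rw [h2] at h1
      linear_combination (D x l) * h1
    rw [e]
    exact dvd_add ih (Dvd.intro _ rfl)

theorem h_mono {k : ℕ} (hk : 1 ≤ k) (l : List ℕ) (j : ℕ) : h (k :: l) j ≤ h (k :: l) (j + 1) := by
  change st k (h l) j ≤ st k (h l) (j + 1)
  simp only [st]
  nlinarith [Nat.mul_le_mul_right (st k (h l) j) hk]

theorem h_zero : ∀ l : List ℕ, h l 0 = 1
  | [] => rfl
  | k :: l => by
    change st k (h l) 0 = 1
    simp only [st]
    exact h_zero l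

theorem h_pos {k : ℕ} (hk : 1 ≤ k) (l : List ℕ) (j : ℕ) : 1 ≤ h (k :: l) j := by
  induction j with
  | zero => rw [h_zero]
  | succ j ih => exact ih.trans (h_mono hk l j)

theorem h_le (K : ℕ) : ∀ (k : ℕ) (l : List ℕ), (∀ a ∈ k :: l, a ≤ K) → ∀ j,
    h (k :: l) j ≤ (j + l.length).choose l.length * K ^ j
  | k, [], hk, j => by
    have hk' : k ≤ K := hk k (by simp)
    induction j with
    | zero => simp [h_zero]
    | succ j ih =>
      have e : h [k] (j + 1) = k * h [k] j := by
        change st k (h []) (j + 1) = k * st k (h []) j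
        simp only [st]
        have : h [] (j + 1) = 0 := rfl
        rw [this, zero_add]
      rw [e]
      simp only [List.length_nil, add_zero, Nat.choose_zero_right, one_mul] at ih ⊢
      calc k * h [k] j ≤ K * K ^ j := Nat.mul_le_mul hk' ih
        _ = K ^ (j + 1) := by ring
  | k, k' :: l, hk, j => by
    have hk' : k ≤ K := hk k (by simp)
    have ihl := h_le K k' l (fun a ha => hk a (List.mem_cons_of_mem _ ha))
    induction j with
    | zero => simp [h_zero]
    | succ j ih =>
      have e : h (k :: k' :: l) (j + 1) = h (k' :: l) (j + 1) + k * h (k :: k' :: l) j := by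
        change st k (h (k' :: l)) (j + 1) = _ + k * st k (h (k' :: l)) j
        simp only [st]
      rw [e]
      have i1 := ihl (j + 1)
      simp only [List.length_cons] at ih ⊢
      have hc : (j + 1 + (l.length + 1)).choose (l.length + 1) =
          (j + 1 + l.length).choose l.length + (j + (l.length + 1)).choose (l.length + 1) := by
        have e1 : j + 1 + (l.length + 1) = (j + 1 + l.length) + 1 := by ring
        have e2 : j + (l.length + 1) = j + 1 + l.length := by ring
        rw [e1, e2, Nat.choose_succ_succ]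
      rw [hc]
      calc h (k' :: l) (j + 1) + k * h (k :: k' :: l) j
          ≤ (j + 1 + l.length).choose l.length * K ^ (j + 1) +
            K * ((j + (l.length + 1)).choose (l.length + 1) * K ^ j) :=
              add_le_add i1 (Nat.mul_le_mul hk' ih)
        _ = ((j + 1 + l.length).choose l.length + (j + (l.length + 1)).choose (l.length + 1)) *
              K ^ (j + 1) := by ring

/-- bounds for alternating sums of a nondecreasing sequence -/
theorem alt_bd (a : ℕ → ℕ) (hm : ∀ j, a j ≤ a (j + 1)) (x : ℤ) (hx : 1 ≤ x) (t : ℕ) :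
    0 ≤ (-1) ^ t * T a x t ∧ (-1) ^ t * T a x t ≤ a t * x ^ t := by
  induction t with
  | zero =>
    rw [T_zero]
    simp
  | succ t ih =>
    have e : (-1) ^ (t + 1) * T a x (t + 1) =
        (a (t + 1) : ℤ) * x ^ (t + 1) - (-1) ^ t * T a x t := by
      rw [T_succ]
      have h2 : (-x) ^ (t + 1) = (-1) ^ (t + 1) * x ^ (t + 1) := by
        rw [← mul_pow]
        congr 1
        ring
      have h3 : ((-1 : ℤ) ^ (t + 1)) * (-1) ^ (t + 1) = 1 := by
        rw [← mul_pow]
        norm_num
      rw [h2]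
      have h4 : ((-1 : ℤ) ^ (t + 1)) = -(-1) ^ t := by ring
      linear_combination ((a (t + 1) : ℤ) * x ^ (t + 1)) * h3 + T a x t * h4
    rw [e]
    have h1 : (a t : ℤ) ≤ a (t + 1) := by exact_mod_cast hm t
    have h2 : x ^ t ≤ x ^ (t + 1) := by
      rw [pow_succ]
      nlinarith [pow_pos (by linarith : (0 : ℤ) < x) t]
    have h3 : (a t : ℤ) * x ^ t ≤ a (t + 1) * x ^ (t + 1) :=
      mul_le_mul h1 h2 (pow_nonneg (by linarith) t) (by positivity)
    constructor
    · linarith [ih.2]
    · linarith [ih.1]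

theorem alt_low (a : ℕ → ℕ) (hm : ∀ j, a j ≤ a (j + 1)) (x : ℤ) (hx : 1 ≤ x) (t : ℕ) :
    (a (t + 1) : ℤ) * (x ^ (t + 1) - x ^ t) ≤ (-1) ^ (t + 1) * T a x (t + 1) := by
  have e : (-1) ^ (t + 1) * T a x (t + 1) =
      (a (t + 1) : ℤ) * x ^ (t + 1) - (-1) ^ t * T a x t := by
    rw [T_succ]
    have h2 : (-x) ^ (t + 1) = (-1) ^ (t + 1) * x ^ (t + 1) := by
      rw [← mul_pow]
      congr 1
      ring
    have h3 : ((-1 : ℤ) ^ (t + 1)) * (-1) ^ (t + 1) = 1 := by
      rw [← mul_pow]
      norm_num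
    rw [h2]
    have h4 : ((-1 : ℤ) ^ (t + 1)) = -(-1) ^ t := by ring
    linear_combination ((a (t + 1) : ℤ) * x ^ (t + 1)) * h3 + T a x t * h4
  rw [e]
  have h1 : (a t : ℤ) ≤ a (t + 1) := by exact_mod_cast hm t
  have h2 := (alt_bd a hm x hx t).2
  have h3 : (a t : ℤ) * x ^ t ≤ a (t + 1) * x ^ t :=
    mul_le_mul_of_nonneg_right h1 (pow_nonneg (by linarith) t)
  linarith

theorem D_ge (x : ℤ) (hx : 1 ≤ x) : ∀ l : List ℕ, (∀ k ∈ l, 1 ≤ k) → x ^ l.length ≤ D x l
  | [], _ => by simp [D]
  | k :: l, hk => by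
    have ih := D_ge x hx l (fun a ha => hk a (List.mem_cons_of_mem _ ha))
    have h1 : (1 : ℤ) ≤ k := by exact_mod_cast hk k (by simp)
    have h2 : (0 : ℤ) < x ^ l.length := pow_pos (by linarith) _
    simp only [D, List.length_cons, pow_succ]
    have h3 : x ≤ k * x + 1 := by nlinarith
    calc x ^ l.length * x = x * x ^ l.length := by ring
      _ ≤ (k * x + 1) * D x l := mul_le_mul h3 ih h2.le (by nlinarith)

theorem D_ge' (x : ℤ) (hx : 1 ≤ x) (k : ℕ) (l : List ℕ) (hk : ∀ a ∈ k :: l, 1 ≤ a) :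
    x ^ (l.length + 1) + 1 ≤ D x (k :: l) := by
  have ih := D_ge x hx l (fun a ha => hk a (List.mem_cons_of_mem _ ha))
  have h1 : (1 : ℤ) ≤ k := by exact_mod_cast hk k (by simp)
  have h2 : (1 : ℤ) ≤ x ^ l.length := one_le_pow₀ hx
  simp only [D]
  have h3 : x + 1 ≤ k * x + 1 := by nlinarith
  calc x ^ (l.length + 1) + 1 ≤ (x + 1) * x ^ l.length := by rw [pow_succ]; nlinarith
    _ ≤ (k * x + 1) * D x l := mul_le_mul h3 ih (by linarith) (by nlinarith)

/-- the number of factors -/
theorem len_le (x : ℤ) (hx : 2 ≤ x) (R : ℤ) (hR : 1 ≤ R) (hRx : R < x) (J : ℕ) (l : List ℕ)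
    (hk : ∀ a ∈ l, 1 ≤ a) (hd : D x l ∣ R * x ^ J + 1) : l.length ≤ J := by
  rcases l with - | ⟨k, l⟩
  · simp
  · by_contra hcon
    push Not at hcon
    have h1 := D_ge' x (by linarith) k l hk
    have h2 : (0 : ℤ) < R * x ^ J + 1 := by positivity
    have h3 := Int.le_of_dvd h2 hd
    have h4 : x ^ (J + 1) ≤ x ^ (l.length + 1) :=
      pow_le_pow_right₀ (by linarith) (by simpa using hcon)
    have h5 : R * x ^ J < x ^ (J + 1) := by
      rw [pow_succ]
      nlinarith [pow_pos (by linarith : (0 : ℤ) < x) J]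
    linarith

/-- the key inequality for at least two factors -/
theorem key (x : ℤ) (hx : 4 ≤ x) (R : ℤ) (hR : 1 ≤ R) (hRx : 2 * R ≤ x) (J : ℕ) (k k' : ℕ)
    (l : List ℕ) (hk : ∀ a ∈ k :: k' :: l, 1 ≤ a) (hJ : l.length + 2 ≤ J)
    (hd : D x (k :: k' :: l) ∣ R * x ^ J + 1) :
    x ≤ h (k :: k' :: l) (J - (l.length + 2) + 1) := by
  by_contra hcon
  push Not at hcon
  obtain ⟨E, hE⟩ := hd
  set L := k :: k' :: l with hL
  set t := J - (l.length + 2) with ht
  have hJt : J = t + (l.length + 2) := by omega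
  have hk1 : 1 ≤ k := hk k (by simp [hL])
  have hm : ∀ j, h L j ≤ h L (j + 1) := fun j => h_mono hk1 _ j
  have hx0 : (0 : ℤ) < x := by linarith
  have hxt : (0 : ℤ) < x ^ t := pow_pos hx0 _
  have hD1 : x ^ (l.length + 2) + 1 ≤ D x L := by
    have := D_ge' x (by linarith) k (k' :: l) hk
    simpa [hL, add_assoc] using this
  have hxs : (0 : ℤ) < x ^ (l.length + 2) := pow_pos hx0 _
  have hEpos : 0 < E := by
    by_contra hneg
    push Not at hneg
    have : D x L * E ≤ 0 := mul_nonpos_of_nonneg_of_nonpos (by linarith) hneg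
    have h2 : (0 : ℤ) < R * x ^ J + 1 := by positivity
    linarith
  -- `E ≤ R x^t`
  have hEle : E ≤ R * x ^ t := by
    by_contra hgt
    push Not at hgt
    have h1 : R * x ^ t + 1 ≤ E := hgt
    have h2 : (x ^ (l.length + 2) + 1) * (R * x ^ t + 1) ≤ D x L * E :=
      mul_le_mul hD1 h1 (by positivity) (by linarith)
    have e : R * x ^ J = x ^ (l.length + 2) * (R * x ^ t) := by
      rw [hJt, pow_add]
      ring
    rw [← hE, e] at h2
    have h3 : (0 : ℤ) < R * x ^ t := mul_pos (by linarith) hxt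
    linarith
  have h2E : 2 * E ≤ x ^ (t + 1) := by
    rw [pow_succ]
    nlinarith
  -- `E ≡ T` modulo `x^(t+2)`
  have hcong : x ^ (t + 1 + 1) ∣ E - T (h L) x (t + 1) := by
    have h1 := D_T x (t + 1) L
    have h2 : x ^ (t + 1 + 1) ∣ R * x ^ J := by
      refine dvd_mul_of_dvd_right (pow_dvd_pow x ?_) R
      omega
    have e : E - T (h L) x (t + 1) = E * -(D x L * T (h L) x (t + 1) - 1) +
        (R * x ^ J) * T (h L) x (t + 1) := by
      linear_combination -(T (h L) x (t + 1)) * hE
    rw [e]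
    exact dvd_add (dvd_mul_of_dvd_right ((dvd_neg).2 h1) _) (dvd_mul_of_dvd_left h2 _)
  have hup := (alt_bd (h L) hm x (by linarith) (t + 1)).2
  have hlo := alt_low (h L) hm x (by linarith) t
  have hone : (1 : ℤ) ≤ h L (t + 1) := by exact_mod_cast h_pos hk1 _ (t + 1)
  have hxx : x ^ (t + 1) = x ^ t * x := pow_succ _ _
  have hxxx : x ^ (t + 1 + 1) = x ^ (t + 1) * x := pow_succ _ _
  have hlo' : x ^ (t + 1) - x ^ t ≤ (-1) ^ (t + 1) * T (h L) x (t + 1) := by
    refine le_trans ?_ hlo
    have : (0 : ℤ) ≤ x ^ (t + 1) - x ^ t := by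
      rw [hxx]
      nlinarith
    nlinarith
  have hup' : (-1) ^ (t + 1) * T (h L) x (t + 1) ≤ (x - 1) * x ^ (t + 1) := by
    refine le_trans hup ?_
    exact mul_le_mul_of_nonneg_right (by linarith) (by positivity)
  have hxt1 : (0 : ℤ) < x ^ (t + 1) := pow_pos hx0 _
  rcases Nat.even_or_odd (t + 1) with hev | hod
  · rw [hev.neg_one_pow, one_mul] at hlo' hup'
    have h1 : E - T (h L) x (t + 1) = 0 := by
      refine Int.eq_zero_of_abs_lt_dvd hcong ?_
      rw [abs_lt, hxxx]
      constructor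
      · nlinarith
      · nlinarith
    nlinarith
  · rw [hod.neg_one_pow] at hlo' hup'
    have h1 : E - T (h L) x (t + 1) = 0 := by
      refine Int.eq_zero_of_abs_lt_dvd hcong ?_
      rw [abs_lt, hxxx]
      constructor
      · nlinarith
      · nlinarith
    nlinarith

end Pool.Agent.PB3ca1
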